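import Mathlib

namespace Pool.Agent.MP9d0111

open Filter Topology
open scoped ENNReal

/-- `σ i : Γ → Sym(d i)` is a sofic approximation of `Γ`. -/
def IsSofic {Γ : Type} [Group Γ] (d : ℕ → ℕ) (σ : ∀ i, Γ → Equiv.Perm (Fin (d i))) : Prop :=
  Tendsto d atTop atTop ∧
  (∀ s t : Γ, Tendsto (fun i =>
    ((Finset.univ.filter fun j => σ i (s * t) j = σ i s (σ i t j)).card : ℝ) / d i) atTop (𝓝 1)) ∧
  (∀ s : Γ, s ≠ 1 → Tendsto (fun i =>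
    ((Finset.univ.filter fun j => σ i s j = j).card : ℝ) / d i) atTop (𝓝 0))

/-- The continuous pseudometrics on `X`, a subspace of `C(X × X, ℝ)`. -/
abbrev PM (X : Type) [TopologicalSpace X] : Type :=
  {ρ : C(X × X, ℝ) // (∀ x, ρ (x, x) = 0) ∧ (∀ x y, ρ (x, y) = ρ (y, x)) ∧
    ∀ x y z, ρ (x, z) ≤ ρ (x, y) + ρ (y, z)}

/-- dynamically generating -/
def DynGen (Γ : Type) [Group Γ] {X : Type} [MulAction Γ X] (ρ : X × X → ℝ) : Prop :=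
  ∀ x y : X, x ≠ y → ∃ s : Γ, 0 < ρ (s • x, s • y)

/-- `ρ_p` on maps `{1..n} → X`. -/
noncomputable def rhoP {X : Type} (ρ : X × X → ℝ) (p : ℝ≥0∞) {n : ℕ} (φ ψ : Fin n → X) : ℝ :=
  if p = ⊤ then ⨆ j, ρ (φ j, ψ j)
  else ((∑ j, ρ (φ j, ψ j) ^ p.toReal) / n) ^ (1 / p.toReal)

/-- `Map(ρ, F, δ, τ)`. -/
def MapSet {Γ X : Type} [Group Γ] [MulAction Γ X] (ρ : X × X → ℝ) (F : Finset Γ) (δ : ℝ)
    {n : ℕ} (τ : Γ → Equiv.Perm (Fin n)) : Set (Fin n → X) :=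
  {φ | ∀ s ∈ F, rhoP ρ 2 (fun j => φ (τ s j)) (fun j => s • φ j) ≤ δ}

/-- `N_ε(Y, θ)`, the largest cardinality of an `ε`-separated subset of `Y`. -/
noncomputable def sepNum {α : Type} (ε : ℝ) (Y : Set α) (θ : α → α → ℝ) : ℝ≥0∞ :=
  ⨆ (S : Finset α) (_ : (S : Set α) ⊆ Y) (_ : (S : Set α).Pairwise fun a b => ε ≤ θ a b),
    (S.card : ℝ≥0∞)

/-- `mdim_{Σ,p}(ρ)`. -/
noncomputable def mdim {Γ X : Type} [Group Γ] [MulAction Γ X] (d : ℕ → ℕ)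
    (σ : ∀ i, Γ → Equiv.Perm (Fin (d i))) (p : ℝ≥0∞) (ρ : X × X → ℝ) : EReal :=
  liminf (fun ε : ℝ => ⨅ (F : Finset Γ) (δ : ℝ) (_ : 0 < δ),
    limsup (fun i => ENNReal.log (sepNum ε (MapSet ρ F δ (σ i)) (rhoP ρ p)) /
      ((d i * Real.log (1 / ε) : ℝ) : EReal)) atTop) (𝓝[>] 0)

/-- `mdim_{Σ,M,p}(X, Γ)`. -/
noncomputable def mdimM {Γ : Type} [Group Γ] (d : ℕ → ℕ)
    (σ : ∀ i, Γ → Equiv.Perm (Fin (d i))) (p : ℝ≥0∞) (X : Type) [TopologicalSpace X]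
    [MulAction Γ X] : EReal :=
  ⨅ (ρ : PM X) (_ : DynGen Γ ρ.1), mdim d σ p ρ.1

end Pool.Agent.MP9d0111
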